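import Pool.Agent.Work.MP_46fa68_63.LinkEG
import Pool.Agent.Work.MP_46fa68_86.Unif

/-!
# MP_46fa68_co: the diagonal `n = 2 t + 1` from one or two gaps

`hK` is the theorem for `2 t + 3 ≤ n`.
-/

set_option autoImplicit false

open Finset Equiv

namespace Pool.JM.Tab

open Pool.EG

/-- levels 0 and 1 -/
theorem holds_one {t : ℕ} {β0 p0 β1 p1 : ℝ} (hN : NumM t β0 p0 β1 (β1 / p1) (p0 * p1) (1 - p1))
    (hp1 : 0 < p1) (hB : β0 < p0 * p1) (hB' : β1 * p0 < 2 * p0 - 1) (hG0 : Gap (2 * t + 1) t 1 β0 p0)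
    (hG1 : Gap (2 * t) (t - 1) p0 β1 p1) (hY : YTop t p0 ∨ YLink t p0 p1)
    (hK : ∀ n' t' : ℕ, 2 * t' + 3 ≤ n' → Holds n' t') : Holds (2 * t + 1) t :=
  endM hN hG0 (inputM_one (by have := hN.ht; omega) hN.hb0 hN.hb1 hN.hp0 hp1 hB hB' hG1 hY)
    (link_all t (by have := hN.ht; omega)) hK

/-- level 0 only -/
theorem holds_top {t : ℕ} {β0 p0 : ℝ}
    (hN : NumM t β0 p0 (β0 / p0) (β0 / (2 * p0 - 1)) (2 * p0 - 1) ((1 - p0) / p0))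
    (hp1 : p0 ≤ 1) (hG0 : Gap (2 * t + 1) t 1 β0 p0) (hY : YTop t p0)
    (hK : ∀ n' t' : ℕ, 2 * t' + 3 ≤ n' → Holds n' t') : Holds (2 * t + 1) t :=
  endM hN hG0 (inputM_top (by have := hN.ht; omega) hN.hb0 hN.hp0 hp1 hY)
    (link_all t (by have := hN.ht; omega)) hK

end Pool.JM.Tab
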