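import Pool.Agent.Work.MP_46fa68_48t.C21_10
import Pool.Agent.Work.MP_46fa68_48c.Tab

/-!
# MP_46fa68_co: excluded densities for S_21, t = 10

The data were found numerically (helper12's solver), rounded and repaired in exact arithmetic.
-/

set_option autoImplicit false

namespace Pool.JM.Tab

open Pool.JM.Pack

theorem jcs21_10 : JCs 20 11 158460 (-1672262) 1888424 41633 (-1612134) := by
  have h := JCs_of_tab_neg cP21_10 cA21_10 cX21_10 cG21_10 cY21_10 cS21_10
  norm_num at h
  exact h

/-- no cell of a 10-intersecting family of at least `θ m!` permutations of `21` points has a density in this range -/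
theorem excl21_10 : Excl 21 10 (1 / 1) (3479 / 10000) (8657 / 10000) :=
  jcs21_10.excl (by norm_num) (by norm_num) (by norm_num) (by norm_num) (by norm_num)
    (by norm_num) (by norm_num) (by norm_num) (by norm_num) (by norm_num) (by norm_num)
    (by norm_num)


end Pool.JM.Tab
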