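import Pool.Agent.Work.MP_46fa68_48t.E19_8
import Pool.Agent.Work.MP_46fa68_48t.E21_10
import Pool.Agent.Work.MP_46fa68_48t.HGen
import Pool.Agent.Work.MP_46fa68_76.HoldsOf11

/-!
# MP_46fa68_co: the diagonal `n = 2 t + 1` for `t = 10` from the packed tables
-/

set_option autoImplicit false

open Finset Equiv

namespace Pool.JM.Tab

open Pool.EG

theorem excl19_8b : Excl 19 8 (731 / 1000) (1549 / 10000) (8323 / 10000) :=
  jcs19_8.excl (by norm_num) (by norm_num) (by norm_num) (by norm_num) (by norm_num)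
    (by norm_num) (by norm_num) (by norm_num) (by norm_num) (by norm_num) (by norm_num)
    (by norm_num)

theorem holds_21 (hK : ∀ n' t' : ℕ, 2 * t' + 3 ≤ n' → Holds n' t') : Holds 21 10 :=
  holds21_of' (Gap.mono excl21_10.gap (by norm_num) le_rfl le_rfl) excl19_8b.gap (link_all 10 (by norm_num)) hK

end Pool.JM.Tab
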