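import Pool.Agent.Work.MP_46fa68_48t.C23_11
import Pool.Agent.Work.MP_46fa68_48c.Tab

/-!
# MP_46fa68_co: excluded densities for S_23, t = 11

The data were found numerically (helper12's solver), rounded and repaired in exact arithmetic.
-/

set_option autoImplicit false

namespace Pool.JM.Tab

open Pool.JM.Pack

theorem jcs23_11 : JCs 22 12 154258 (-2742350) 2969021 45989 (-2611681) := by
  have h := JCs_of_tab_neg cP23_11 cA23_11 cX23_11 cG23_11 cY23_11 cS23_11
  norm_num at h
  exact h

/-- no cell of a 11-intersecting family of at least `θ m!` permutations of `23` points has a density in this range -/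
theorem excl23_11 : Excl 23 11 (1 / 1) (2793 / 10000) (8881 / 10000) :=
  jcs23_11.excl (by norm_num) (by norm_num) (by norm_num) (by norm_num) (by norm_num)
    (by norm_num) (by norm_num) (by norm_num) (by norm_num) (by norm_num) (by norm_num)
    (by norm_num)


end Pool.JM.Tab
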