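import Pool.Agent.Work.MP_46fa68_48t.C24_11
import Pool.Agent.Work.MP_46fa68_48c.Tab

/-!
# MP_46fa68_co: excluded densities for S_24, t = 11

The data were found numerically (helper12's solver), rounded and repaired in exact arithmetic.
-/

set_option autoImplicit false

namespace Pool.JM.Tab

open Pool.JM.Pack

theorem jcs24_11 : JCs 23 13 103991 (-9212874) 10002570 96242 (-9723368) := by
  have h := JCs_of_tab_neg cP24_11 cA24_11 cX24_11 cG24_11 cY24_11 cS24_11
  norm_num at h
  exact h

/-- no cell of a 11-intersecting family of at least `θ m!` permutations of `24` points has a density in this range -/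
theorem excl24_11 : Excl 24 11 (9 / 10) (1217 / 10000) (1783 / 2000) :=
  jcs24_11.excl (by norm_num) (by norm_num) (by norm_num) (by norm_num) (by norm_num)
    (by norm_num) (by norm_num) (by norm_num) (by norm_num) (by norm_num) (by norm_num)
    (by norm_num)


end Pool.JM.Tab
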