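import Pool.Agent.Work.MP_46fa68_48t.C25_12
import Pool.Agent.Work.MP_46fa68_48c.Tab

/-!
# MP_46fa68_co: excluded densities for S_25, t = 12

The data were found numerically (helper12's solver), rounded and repaired in exact arithmetic.
-/

set_option autoImplicit false

namespace Pool.JM.Tab

open Pool.JM.Pack

theorem jcs25_12 : JCs 24 13 155995 (-3279243) 3510819 44253 (-3112459) := by
  have h := JCs_of_tab_neg cP25_12 cA25_12 cX25_12 cG25_12 cY25_12 cS25_12
  norm_num at h
  exact h

/-- no cell of a 12-intersecting family of at least `θ m!` permutations of `25` points has a density in this range -/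
theorem excl25_12 : Excl 25 12 (1 / 1) (643 / 2500) (4517 / 5000) :=
  jcs25_12.excl (by norm_num) (by norm_num) (by norm_num) (by norm_num) (by norm_num)
    (by norm_num) (by norm_num) (by norm_num) (by norm_num) (by norm_num) (by norm_num)
    (by norm_num)


end Pool.JM.Tab
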