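import Pool.Agent.Work.MP_46fa68_48t.C26_12
import Pool.Agent.Work.MP_46fa68_48c.Tab

/-!
# MP_46fa68_co: excluded densities for S_26, t = 12

The data were found numerically (helper12's solver), rounded and repaired in exact arithmetic.
-/

set_option autoImplicit false

namespace Pool.JM.Tab

open Pool.JM.Pack

theorem jcs26_12 : JCs 25 14 102786 (-11006971) 11828454 97446 (-11489019) := by
  have h := JCs_of_tab_neg cP26_12 cA26_12 cX26_12 cG26_12 cY26_12 cS26_12
  norm_num at h
  exact h

/-- no cell of a 12-intersecting family of at least `θ m!` permutations of `26` points has a density in this range -/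
theorem excl26_12 : Excl 26 12 (114 / 125) (1079 / 10000) (901 / 1000) :=
  jcs26_12.excl (by norm_num) (by norm_num) (by norm_num) (by norm_num) (by norm_num)
    (by norm_num) (by norm_num) (by norm_num) (by norm_num) (by norm_num) (by norm_num)
    (by norm_num)


end Pool.JM.Tab
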