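import Pool.Agent.Work.MP_46fa68_48t.D27_13

/-!
# MP_46fa68_co: checks for S_27, t = 13

The data were found numerically (helper12's solver), rounded and repaired in exact arithmetic.
-/

set_option autoImplicit false

namespace Pool.JM.Tab

open Pool.JM.Pack

theorem cP27_13 : cP W27_13 113 V27_13 333 1 281474976710656 79228162514264337593543950336 55 14 12 69498 3186968327473048046809884036 U27_13 156800 0 3699942
    0 3936039 11241310618137600000000000000 43448 0 3495034 = true := by
  decide +kernel

theorem cA27_13 : cL W27_13 113 55 14 12 69498 (Nat.mul U27_13 156800) (Nat.mul U27_13 0)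
    (Nat.mul U27_13 3699942) tA27_13 = true := by
  decide +kernel


end Pool.JM.Tab
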