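import Pool.Agent.Work.MP_46fa68_48t.D27_13

/-!
# MP_46fa68_co: checks for S_27, t = 13

The data were found numerically (helper12's solver), rounded and repaired in exact arithmetic.
-/

set_option autoImplicit false

namespace Pool.JM.Tab

open Pool.JM.Pack

theorem cG27_13 : cL W27_13 113 55 14 13 69498 (Nat.mul U27_13 43448) (Nat.mul U27_13 0)
    (Nat.mul U27_13 3495034) tG27_13 = true := by
  decide +kernel

theorem cY27_13 : cY W27_13 55 27 3186968327473048046809884036 tG27_13 = true := by
  decide +kernel


end Pool.JM.Tab
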