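import Pool.Agent.Work.MP_46fa68_48c.Tab
import Pool.Agent.Work.MP_46fa68_48t.CA27_13
import Pool.Agent.Work.MP_46fa68_48t.CX27_13
import Pool.Agent.Work.MP_46fa68_48t.CG27_13
import Pool.Agent.Work.MP_46fa68_48t.CS27_13

/-!
# MP_46fa68_co: excluded densities for S_27, t = 13

The data were found numerically (helper12's solver), rounded and repaired in exact arithmetic.
-/

set_option autoImplicit false

namespace Pool.JM.Tab

open Pool.JM.Pack

theorem jcs27_13 : JCs 26 14 156800 (-3699942) 3936039 43448 (-3495034) := by
  have h := JCs_of_tab_neg cP27_13 cA27_13 cX27_13 cG27_13 cY27_13 cS27_13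
  norm_num at h
  exact h

/-- no cell of a 13-intersecting family of at least `θ m!` permutations of `27` points has a density in this range -/
theorem excl27_13 : Excl 27 13 (1 / 1) (237 / 1000) (4571 / 5000) :=
  jcs27_13.excl (by norm_num) (by norm_num) (by norm_num) (by norm_num) (by norm_num)
    (by norm_num) (by norm_num) (by norm_num) (by norm_num) (by norm_num) (by norm_num)
    (by norm_num)


end Pool.JM.Tab
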