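import Pool.Agent.Work.MP_46fa68_48t.E22_10
import Pool.Agent.Work.MP_46fa68_48t.E23_11
import Pool.Agent.Work.MP_46fa68_48t.E24_11
import Pool.Agent.Work.MP_46fa68_48t.E25_12
import Pool.Agent.Work.MP_46fa68_48t.E26_12
import Pool.Agent.Work.MP_46fa68_48t.E27_13
import Pool.Agent.Work.MP_46fa68_48t.HGen

/-!
# MP_46fa68_co: the diagonal `n = 2 t + 1` for `t = 11, 12, 13` from the packed tables

`hK` is the theorem for `2 t + 3 ≤ n`.
-/

set_option autoImplicit false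

open Finset Equiv

namespace Pool.JM.Tab

open Pool.EG

theorem holds_23 (hK : ∀ n' t' : ℕ, 2 * t' + 3 ≤ n' → Holds n' t') : Holds 23 11 := by
  have h0 : Gap (2 * 11 + 1) 11 1 (2793 / 10000) (886 / 1000) :=
    Gap.mono excl23_11.gap (by norm_num) (by norm_num) (by norm_num)
  have h1 : Gap (2 * 11) (11 - 1) (886 / 1000) (1395 / 10000) (875 / 1000) :=
    Gap.mono excl22_10.gap (by norm_num) (by norm_num) (by norm_num)
  refine holds_one ⟨?_, ?_, ?_, ?_, ?_, ?_, ?_, ?_, Or.inl ?_, Or.inr ?_, Or.inl ?_⟩ ?_ ?_ ?_ h0 h1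
    (Or.inr ?_) hK
  all_goals norm_num [phi, YLink]

theorem holds_25 (hK : ∀ n' t' : ℕ, 2 * t' + 3 ≤ n' → Holds n' t') : Holds 25 12 := by
  have h0 : Gap (2 * 12 + 1) 12 1 (2572 / 10000) (900 / 1000) :=
    Gap.mono excl25_12.gap (by norm_num) (by norm_num) (by norm_num)
  have h1 : Gap (2 * 12) (12 - 1) (900 / 1000) (1217 / 10000) (8915 / 10000) :=
    Gap.mono excl24_11.gap (by norm_num) (by norm_num) (by norm_num)
  refine holds_one ⟨?_, ?_, ?_, ?_, ?_, ?_, ?_, ?_, Or.inl ?_, Or.inr ?_, Or.inl ?_⟩ ?_ ?_ ?_ h0 h1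
    (Or.inr ?_) hK
  all_goals norm_num [phi, YLink]

theorem holds_27 (hK : ∀ n' t' : ℕ, 2 * t' + 3 ≤ n' → Holds n' t') : Holds 27 13 := by
  have h0 : Gap (2 * 13 + 1) 13 1 (2370 / 10000) (912 / 1000) :=
    Gap.mono excl27_13.gap (by norm_num) (by norm_num) (by norm_num)
  have h1 : Gap (2 * 13) (13 - 1) (912 / 1000) (1079 / 10000) (9010 / 10000) :=
    Gap.mono excl26_12.gap (by norm_num) (by norm_num) (by norm_num)
  refine holds_one ⟨?_, ?_, ?_, ?_, ?_, ?_, ?_, ?_, Or.inl ?_, Or.inr ?_, Or.inl ?_⟩ ?_ ?_ ?_ h0 h1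
    (Or.inr ?_) hK
  all_goals norm_num [phi, YLink]

end Pool.JM.Tab
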