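import Pool.Agent.Work.MP_46fa68_48t.D29_14

/-!
# MP_46fa68_co: checks for S_29, t = 14

The data were found numerically (helper12's solver), rounded and repaired in exact arithmetic.
-/

set_option autoImplicit false

namespace Pool.JM.Tab

open Pool.JM.Pack

theorem cP29_14 : cP W29_14 121 V29_14 365 1 72057594037927936 5192296858534827628530496329220096 59 15 13 292864 204061852804817908095716527325 U29_14 158346 0 4648809
    0 4881623 676144016439091200000000000000 41902 0 4402031 = true := by
  decide +kernel

theorem cA29_14 : cL W29_14 121 59 15 13 292864 (Nat.mul U29_14 158346) (Nat.mul U29_14 0)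
    (Nat.mul U29_14 4648809) tA29_14 = true := by
  decide +kernel


end Pool.JM.Tab
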