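import Pool.Agent.Work.MP_46fa68_48t.D29_14

/-!
# MP_46fa68_co: checks for S_29, t = 14

The data were found numerically (helper12's solver), rounded and repaired in exact arithmetic.
-/

set_option autoImplicit false

namespace Pool.JM.Tab

open Pool.JM.Pack

theorem cG29_14 : cL W29_14 121 59 15 14 292864 (Nat.mul U29_14 41902) (Nat.mul U29_14 0)
    (Nat.mul U29_14 4402031) tG29_14 = true := by
  decide +kernel

theorem cY29_14 : cY W29_14 59 29 204061852804817908095716527325 tG29_14 = true := by
  decide +kernel


end Pool.JM.Tab
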