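import Pool.Agent.Work.MP_46fa68_48c.Tab
import Pool.Agent.Work.MP_46fa68_48t.CA29_14
import Pool.Agent.Work.MP_46fa68_48t.CX29_14
import Pool.Agent.Work.MP_46fa68_48t.CG29_14
import Pool.Agent.Work.MP_46fa68_48t.CS29_14

/-!
# MP_46fa68_co: excluded densities for S_29, t = 14

The data were found numerically (helper12's solver), rounded and repaired in exact arithmetic.
-/

set_option autoImplicit false

namespace Pool.JM.Tab

open Pool.JM.Pack

theorem jcs29_14 : JCs 28 15 158346 (-4648809) 4881623 41902 (-4402031) := by
  have h := JCs_of_tab_neg cP29_14 cA29_14 cX29_14 cG29_14 cY29_14 cS29_14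
  norm_num at h
  exact h

/-- no cell of a 14-intersecting family of at least `θ m!` permutations of `29` points has a density in this range -/
theorem excl29_14 : Excl 29 14 (1 / 1) (1133 / 5000) (4613 / 5000) :=
  jcs29_14.excl (by norm_num) (by norm_num) (by norm_num) (by norm_num) (by norm_num)
    (by norm_num) (by norm_num) (by norm_num) (by norm_num) (by norm_num) (by norm_num)
    (by norm_num)


end Pool.JM.Tab
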