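import Pool.Agent.Work.MP_46fa68_48t.D31_15

/-!
# MP_46fa68_co: checks for S_31, t = 15

The data were found numerically (helper12's solver), rounded and repaired in exact arithmetic.
-/

set_option autoImplicit false

namespace Pool.JM.Tab

open Pool.JM.Pack

theorem cP31_15 : cP W31_15 125 V31_15 373 1 72057594037927936 5192296858534827628530496329220096 63 16 14 1153152 38785774948079360892412143908899 U31_15 107514 0 14945828
    0 15542829 19650435477761088000000000000000 92709 0 14910863 = true := by
  decide +kernel

theorem cA31_15 : cL W31_15 125 63 16 14 1153152 (Nat.mul U31_15 107514) (Nat.mul U31_15 0)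
    (Nat.mul U31_15 14945828) tA31_15 = true := by
  decide +kernel


end Pool.JM.Tab
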