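import Pool.Agent.Work.MP_46fa68_48t.D31_15

/-!
# MP_46fa68_co: checks for S_31, t = 15

The data were found numerically (helper12's solver), rounded and repaired in exact arithmetic.
-/

set_option autoImplicit false

namespace Pool.JM.Tab

open Pool.JM.Pack

theorem cG31_15 : cL W31_15 125 63 16 15 1153152 (Nat.mul U31_15 92709) (Nat.mul U31_15 0)
    (Nat.mul U31_15 14910863) tG31_15 = true := by
  decide +kernel

theorem cY31_15 : cY W31_15 63 31 38785774948079360892412143908899 tG31_15 = true := by
  decide +kernel


end Pool.JM.Tab
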