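import Pool.Agent.Work.MP_46fa68_48c.Tab
import Pool.Agent.Work.MP_46fa68_48t.CA31_15
import Pool.Agent.Work.MP_46fa68_48t.CX31_15
import Pool.Agent.Work.MP_46fa68_48t.CG31_15
import Pool.Agent.Work.MP_46fa68_48t.CS31_15

/-!
# MP_46fa68_co: excluded densities for S_31, t = 15

The data were found numerically (helper12's solver), rounded and repaired in exact arithmetic.
-/

set_option autoImplicit false

namespace Pool.JM.Tab

open Pool.JM.Pack

theorem jcs31_15 : JCs 30 16 107514 (-14945828) 15542829 92709 (-14910863) := by
  have h := JCs_of_tab_neg cP31_15 cA31_15 cX31_15 cG31_15 cY31_15 cS31_15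
  norm_num at h
  exact h

/-- no cell of a 15-intersecting family of at least `θ m!` permutations of `31` points has a density in this range -/
theorem excl31_15 : Excl 31 15 (1 / 1) (939 / 10000) (9177 / 10000) :=
  jcs31_15.excl (by norm_num) (by norm_num) (by norm_num) (by norm_num) (by norm_num)
    (by norm_num) (by norm_num) (by norm_num) (by norm_num) (by norm_num) (by norm_num)
    (by norm_num)


end Pool.JM.Tab
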