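import Pool.Agent.Work.MP_46fa68_48t.D33_16

/-!
# MP_46fa68_co: checks for S_33, t = 16

The data were found numerically (helper12's solver), rounded and repaired in exact arithmetic.
-/

set_option autoImplicit false

namespace Pool.JM.Tab

open Pool.JM.Pack

theorem cP33_16 : cP W33_16 137 V33_16 413 1 18446744073709551616 340282366920938463463374607431768211456 67 17 15 4873050 25887656181744033642210884974877426 U33_16 108793 0 17658836
    0 18026503 12206388155597475840000000000000000 91652 0 17075934 = true := by
  decide +kernel

theorem cA33_16 : cL W33_16 137 67 17 15 4873050 (Nat.mul U33_16 108793) (Nat.mul U33_16 0)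
    (Nat.mul U33_16 17658836) tA33_16 = true := by
  decide +kernel


end Pool.JM.Tab
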