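import Pool.Agent.Work.MP_46fa68_48t.D33_16

/-!
# MP_46fa68_co: checks for S_33, t = 16

The data were found numerically (helper12's solver), rounded and repaired in exact arithmetic.
-/

set_option autoImplicit false

namespace Pool.JM.Tab

open Pool.JM.Pack

theorem cG33_16 : cL W33_16 137 67 17 16 4873050 (Nat.mul U33_16 91652) (Nat.mul U33_16 0)
    (Nat.mul U33_16 17075934) tG33_16 = true := by
  decide +kernel

theorem cY33_16 : cY W33_16 67 33 25887656181744033642210884974877426 tG33_16 = true := by
  decide +kernel


end Pool.JM.Tab
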