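import Pool.Agent.Work.MP_46fa68_48t.D33_16
import Pool.Agent.Work.MP_46fa68_48t.DF33_16
import Pool.Agent.Work.MP_46fa68_48t.DV33_16
import Pool.Agent.Work.MP_46fa68_48c.Split

/-!
# MP_46fa68_co: variance checks for S_33, t = 16

The data were found numerically (helper12's solver), rounded and repaired in exact arithmetic.
-/

set_option autoImplicit false

namespace Pool.JM.Tab

open Pool.JM.Pack

theorem pB33_16 : cPB W33_16 137 VB33_16 145 BB33_16 1 1152921504606846976 1329227995784915872903807060280344576 67 17 15 4873050 25887656181744033642210884974877426 U33_16 108793 0 17658836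
    0 18026503 12206388155597475840000000000000000 91652 0 17075934 = true := by
  decide +kernel

theorem cF33_16 : upr W33_16 137 67 33 0 1 (fun y => Nat.beq y tF33_16) = true := by
  decide +kernel


end Pool.JM.Tab
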