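import Pool.Agent.Work.MP_46fa68_48t.D33_16
import Pool.Agent.Work.MP_46fa68_48t.DF33_16
import Pool.Agent.Work.MP_46fa68_48t.DV33_16
import Pool.Agent.Work.MP_46fa68_48c.Split

/-!
# MP_46fa68_co: variance checks for S_33, t = 16

The data were found numerically (helper12's solver), rounded and repaired in exact arithmetic.
-/

set_option autoImplicit false

namespace Pool.JM.Tab

open Pool.JM.Pack

theorem mQ33_16 : cM VB33_16 145 W33_16 67 33 (gQ BB33_16 1152921504606846976) tX33_16 tG33_16 tF33_16 tQ33_16 = true := by
  decide +kernel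


end Pool.JM.Tab
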