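import Pool.Agent.Work.MP_46fa68_48t.D33_16

/-!
# MP_46fa68_co: checks for S_33, t = 16

The data were found numerically (helper12's solver), rounded and repaired in exact arithmetic.
-/

set_option autoImplicit false

namespace Pool.JM.Tab

open Pool.JM.Pack

theorem cX33_16 : cL W33_16 137 67 17 16 4873050 12206388155597475840000000000000000 (Nat.mul U33_16 0)
    (Nat.mul U33_16 18026503) tX33_16 = true := by
  decide +kernel


end Pool.JM.Tab
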