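import Pool.Agent.Work.MP_46fa68_48c.TabB
import Pool.Agent.Work.MP_46fa68_48t.CA33_16
import Pool.Agent.Work.MP_46fa68_48t.CX33_16
import Pool.Agent.Work.MP_46fa68_48t.CG33_16
import Pool.Agent.Work.MP_46fa68_48t.CN33_16
import Pool.Agent.Work.MP_46fa68_48t.CP33_16
import Pool.Agent.Work.MP_46fa68_48t.CQ33_16
import Pool.Agent.Work.MP_46fa68_48t.CR33_16
import Pool.Agent.Work.MP_46fa68_48t.CT33_16

/-!
# MP_46fa68_co: excluded densities for S_33, t = 16

The data were found numerically (helper12's solver), rounded and repaired in exact arithmetic.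
-/

set_option autoImplicit false

namespace Pool.JM.Tab

open Pool.JM.Pack

theorem jcs33_16 : JCs 32 17 108793 (-17658836) 18026503 91652 (-17075934) := by
  have h := JCs_of_pieces_neg pB33_16 cA33_16 cX33_16 cG33_16 cY33_16 cF33_16 mP33_16 mQ33_16
    mR33_16 mS33_16
  norm_num at h
  exact h

/-- no cell of a 16-intersecting family of at least `θ m!` permutations of `33` points has a density in this range -/
theorem excl33_16 : Excl 33 16 1 (54 / 625) (4619 / 5000) :=
  jcs33_16.excl (by norm_num) (by norm_num) (by norm_num) (by norm_num) (by norm_num)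
    (by norm_num) (by norm_num) (by norm_num) (by norm_num) (by norm_num) (by norm_num)
    (by norm_num)


end Pool.JM.Tab
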