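import Pool.Agent.Work.MP_46fa68_48t.D35_17
import Pool.Agent.Work.MP_46fa68_48t.DF35_17
import Pool.Agent.Work.MP_46fa68_48t.DV35_17
import Pool.Agent.Work.MP_46fa68_48c.Split

/-!
# MP_46fa68_co: variance checks for S_35, t = 17

The data were found numerically (helper12's solver), rounded and repaired in exact arithmetic.
-/

set_option autoImplicit false

namespace Pool.JM.Tab

open Pool.JM.Pack

theorem pB35_17 : cPB W35_17 145 VB35_17 157 BB35_17 1 18446744073709551616 340282366920938463463374607431768211456 71 18 16 16336320 1820599780622385340990656668308573612 U35_17 108888 0 19996134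
    0 20346618 806977883620055347200000000000000000 91557 0 19288143 = true := by
  decide +kernel

theorem cF35_17 : upr W35_17 145 71 35 0 1 (fun y => Nat.beq y tF35_17) = true := by
  decide +kernel


end Pool.JM.Tab
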