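import Pool.Agent.Work.MP_46fa68_48t.D35_17
import Pool.Agent.Work.MP_46fa68_48t.DV35_17
import Pool.Agent.Work.MP_46fa68_48c.Split

/-!
# MP_46fa68_co: variance checks for S_35, t = 17

The data were found numerically (helper12's solver), rounded and repaired in exact arithmetic.
-/

set_option autoImplicit false

namespace Pool.JM.Tab

open Pool.JM.Pack

theorem mS35_17 : ck4 VB35_17 W35_17 (fS 1) 71 34 34 tP35_17 tQ35_17 tR35_17 tA35_17 = true := by
  decide +kernel


end Pool.JM.Tab
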