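import Pool.Agent.Work.MP_46fa68_48t.D35_17

/-!
# MP_46fa68_co: checks for S_35, t = 17

The data were found numerically (helper12's solver), rounded and repaired in exact arithmetic.
-/

set_option autoImplicit false

namespace Pool.JM.Tab

open Pool.JM.Pack

theorem cX35_17 : cL W35_17 145 71 18 17 16336320 806977883620055347200000000000000000 (Nat.mul U35_17 0)
    (Nat.mul U35_17 20346618) tX35_17 = true := by
  decide +kernel


end Pool.JM.Tab
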