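import Pool.Agent.Work.MP_46fa68_48c.TabB
import Pool.Agent.Work.MP_46fa68_48t.CA35_17
import Pool.Agent.Work.MP_46fa68_48t.CX35_17
import Pool.Agent.Work.MP_46fa68_48t.CG35_17
import Pool.Agent.Work.MP_46fa68_48t.CN35_17
import Pool.Agent.Work.MP_46fa68_48t.CP35_17
import Pool.Agent.Work.MP_46fa68_48t.CQ35_17
import Pool.Agent.Work.MP_46fa68_48t.CR35_17
import Pool.Agent.Work.MP_46fa68_48t.CT35_17

/-!
# MP_46fa68_co: excluded densities for S_35, t = 17

The data were found numerically (helper12's solver), rounded and repaired in exact arithmetic.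
-/

set_option autoImplicit false

namespace Pool.JM.Tab

open Pool.JM.Pack

theorem jcs35_17 : JCs 34 18 108888 (-19996134) 20346618 91557 (-19288143) := by
  have h := JCs_of_pieces_neg pB35_17 cA35_17 cX35_17 cG35_17 cY35_17 cF35_17 mP35_17 mQ35_17
    mR35_17 mS35_17
  norm_num at h
  exact h

/-- no cell of a 17-intersecting family of at least `θ m!` permutations of `35` points has a density in this range -/
theorem excl35_17 : Excl 35 17 1 (803 / 10000) (2323 / 2500) :=
  jcs35_17.excl (by norm_num) (by norm_num) (by norm_num) (by norm_num) (by norm_num)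
    (by norm_num) (by norm_num) (by norm_num) (by norm_num) (by norm_num) (by norm_num)
    (by norm_num)


end Pool.JM.Tab
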