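import Pool.Agent.Work.MP_46fa68_48t.E28_13
import Pool.Agent.Work.MP_46fa68_48t.E29_14
import Pool.Agent.Work.MP_46fa68_48t.E31_15
import Pool.Agent.Work.MP_46fa68_48t.E33_16
import Pool.Agent.Work.MP_46fa68_48t.E35_17
import Pool.Agent.Work.MP_46fa68_48t.HGen

/-!
# MP_46fa68_co: the diagonal `n = 2 t + 1` for `t = 14, 15, 16, 17` from the packed tables

`hK` is the theorem for `2 t + 3 ≤ n`.
-/

set_option autoImplicit false

open Finset Equiv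

namespace Pool.JM.Tab

open Pool.EG

theorem holds_29 (hK : ∀ n' t' : ℕ, 2 * t' + 3 ≤ n' → Holds n' t') : Holds 29 14 := by
  have h0 : Gap (2 * 14 + 1) 14 1 (2266 / 10000) (9150 / 10000) :=
    Gap.mono excl29_14.gap (by norm_num) (by norm_num) (by norm_num)
  have h1 : Gap (2 * 14) (14 - 1) (9150 / 10000) (979 / 10000) (9083 / 10000) :=
    Gap.mono excl28_13.gap (by norm_num) (by norm_num) (by norm_num)
  refine holds_one ⟨?_, ?_, ?_, ?_, ?_, ?_, ?_, ?_, Or.inl ?_, Or.inr ?_, Or.inl ?_⟩ ?_ ?_ ?_ h0 h1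
    (Or.inr ?_) hK
  all_goals norm_num [phi, YLink]

theorem holds_31 (hK : ∀ n' t' : ℕ, 2 * t' + 3 ≤ n' → Holds n' t') : Holds 31 15 := by
  have h0 : Gap (2 * 15 + 1) 15 1 (939 / 10000) (9177 / 10000) :=
    Gap.mono excl31_15.gap (by norm_num) (by norm_num) (by norm_num)
  refine holds_top ⟨?_, ?_, ?_, ?_, ?_, ?_, ?_, ?_, Or.inl ?_, Or.inl ?_, Or.inl ?_⟩ ?_ h0 ?_ hK
  all_goals norm_num [phi, YTop]

theorem holds_33 (hK : ∀ n' t' : ℕ, 2 * t' + 3 ≤ n' → Holds n' t') : Holds 33 16 := by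
  have h0 : Gap (2 * 16 + 1) 16 1 (864 / 10000) (9238 / 10000) :=
    Gap.mono excl33_16.gap (by norm_num) (by norm_num) (by norm_num)
  refine holds_top ⟨?_, ?_, ?_, ?_, ?_, ?_, ?_, ?_, Or.inl ?_, Or.inl ?_, Or.inl ?_⟩ ?_ h0 ?_ hK
  all_goals norm_num [phi, YTop]

theorem holds_35 (hK : ∀ n' t' : ℕ, 2 * t' + 3 ≤ n' → Holds n' t') : Holds 35 17 := by
  have h0 : Gap (2 * 17 + 1) 17 1 (803 / 10000) (9292 / 10000) :=
    Gap.mono excl35_17.gap (by norm_num) (by norm_num) (by norm_num)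
  refine holds_top ⟨?_, ?_, ?_, ?_, ?_, ?_, ?_, ?_, Or.inl ?_, Or.inl ?_, Or.inl ?_⟩ ?_ h0 ?_ hK
  all_goals norm_num [phi, YTop]

end Pool.JM.Tab
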