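import Pool.Agent.Work.MP_46fa68_48t.E39_19
import Pool.Agent.Work.MP_46fa68_48t.HGen

/-!
# MP_46fa68_co: the diagonal `n = 2 t + 1` for `t = 19` from the packed tables
-/

set_option autoImplicit false

open Finset Equiv

namespace Pool.JM.Tab

open Pool.EG

theorem holds_39 (hK : ∀ n' t' : ℕ, 2 * t' + 3 ≤ n' → Holds n' t') : Holds 39 19 := by
  have h0 : Gap (2 * 19 + 1) 19 1 (714 / 10000) (938 / 1000) :=
    Gap.mono excl39_19.gap (by norm_num) (by norm_num) (by norm_num)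
  refine holds_top ⟨?_, ?_, ?_, ?_, ?_, ?_, ?_, ?_, Or.inl ?_, Or.inl ?_, Or.inl ?_⟩ ?_ h0 ?_ hK
  all_goals norm_num [phi, YTop]

end Pool.JM.Tab
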