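import Pool.Agent.Work.MP_46fa68_48t.D19_8

/-!
# MP_46fa68_co: checks for S_19, t = 8

The data were found numerically (helper12's solver), rounded and repaired in exact arithmetic.
-/

set_option autoImplicit false

namespace Pool.JM.Tab

open Pool.JM.Pack

theorem cP19_8 : cP W19_8 81 V19_8 253 1 1099511627776 1208925819614629174706176 39 11 7 2310 238275045508581795997 U19_8 91827 0 5829097
    0 6530524 182847974400000000000 108401 0 6247248 = true := by
  decide +kernel

theorem cA19_8 : cL W19_8 81 39 11 7 2310 (Nat.mul U19_8 91827) (Nat.mul U19_8 0)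
    (Nat.mul U19_8 5829097) tA19_8 = true := by
  decide +kernel

theorem cX19_8 : cL W19_8 81 39 11 8 2310 182847974400000000000 (Nat.mul U19_8 0)
    (Nat.mul U19_8 6530524) tX19_8 = true := by
  decide +kernel

theorem cG19_8 : cL W19_8 81 39 11 8 2310 (Nat.mul U19_8 108401) (Nat.mul U19_8 0)
    (Nat.mul U19_8 6247248) tG19_8 = true := by
  decide +kernel

theorem cY19_8 : cY W19_8 39 19 238275045508581795997 tG19_8 = true := by
  decide +kernel

theorem cS19_8 : cS V19_8 253 W19_8 81 1 1099511627776 1208925819614629174706176 39 19 tA19_8 tX19_8 tG19_8 = true := by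
  decide +kernel


end Pool.JM.Tab
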