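import Pool.Agent.Work.MP_46fa68_48t.D21_10

/-!
# MP_46fa68_co: checks for S_21, t = 10

The data were found numerically (helper12's solver), rounded and repaired in exact arithmetic.
-/

set_option autoImplicit false

namespace Pool.JM.Tab

open Pool.JM.Pack

theorem cP21_10 : cP W21_10 89 V21_10 269 1 1099511627776 1208925819614629174706176 43 11 9 2310 19769130231481365835604 U21_10 158460 0 1672262
    0 1888424 179191014912000000000000 41633 0 1612134 = true := by
  decide +kernel

theorem cA21_10 : cL W21_10 89 43 11 9 2310 (Nat.mul U21_10 158460) (Nat.mul U21_10 0)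
    (Nat.mul U21_10 1672262) tA21_10 = true := by
  decide +kernel

theorem cX21_10 : cL W21_10 89 43 11 10 2310 179191014912000000000000 (Nat.mul U21_10 0)
    (Nat.mul U21_10 1888424) tX21_10 = true := by
  decide +kernel

theorem cG21_10 : cL W21_10 89 43 11 10 2310 (Nat.mul U21_10 41633) (Nat.mul U21_10 0)
    (Nat.mul U21_10 1612134) tG21_10 = true := by
  decide +kernel

theorem cY21_10 : cY W21_10 43 21 19769130231481365835604 tG21_10 = true := by
  decide +kernel

theorem cS21_10 : cS V21_10 269 W21_10 89 1 1099511627776 1208925819614629174706176 43 21 tA21_10 tX21_10 tG21_10 = true := by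
  decide +kernel


end Pool.JM.Tab
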