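import Pool.Agent.Work.MP_46fa68_48t.D22_10

/-!
# MP_46fa68_co: checks for S_22, t = 10

The data were found numerically (helper12's solver), rounded and repaired in exact arithmetic.
-/

set_option autoImplicit false

namespace Pool.JM.Tab

open Pool.JM.Pack

theorem cP22_10 : cP W22_10 93 V22_10 293 1 281474976710656 79228162514264337593543950336 45 12 9 7700 187747971482336972763776 U22_10 103119 0 7570874
    0 8317985 117327450240000000000000 97113 0 8104122 = true := by
  decide +kernel

theorem cA22_10 : cL W22_10 93 45 12 9 7700 (Nat.mul U22_10 103119) (Nat.mul U22_10 0)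
    (Nat.mul U22_10 7570874) tA22_10 = true := by
  decide +kernel

theorem cX22_10 : cL W22_10 93 45 12 10 7700 117327450240000000000000 (Nat.mul U22_10 0)
    (Nat.mul U22_10 8317985) tX22_10 = true := by
  decide +kernel

theorem cG22_10 : cL W22_10 93 45 12 10 7700 (Nat.mul U22_10 97113) (Nat.mul U22_10 0)
    (Nat.mul U22_10 8104122) tG22_10 = true := by
  decide +kernel

theorem cY22_10 : cY W22_10 45 22 187747971482336972763776 tG22_10 = true := by
  decide +kernel

theorem cS22_10 : cS V22_10 293 W22_10 93 1 281474976710656 79228162514264337593543950336 45 22 tA22_10 tX22_10 tG22_10 = true := by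
  decide +kernel


end Pool.JM.Tab
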