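import Pool.Agent.Work.MP_46fa68_48t.D23_11

/-!
# MP_46fa68_co: checks for S_23, t = 11

The data were found numerically (helper12's solver), rounded and repaired in exact arithmetic.
-/

set_option autoImplicit false

namespace Pool.JM.Tab

open Pool.JM.Pack

theorem cP23_11 : cP W23_11 97 V23_11 301 1 281474976710656 79228162514264337593543950336 47 12 10 7700 1200614873469469254228283 U23_11 154258 0 2742350
    0 2969021 4857356439936000000000000 45989 0 2611681 = true := by
  decide +kernel

theorem cA23_11 : cL W23_11 97 47 12 10 7700 (Nat.mul U23_11 154258) (Nat.mul U23_11 0)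
    (Nat.mul U23_11 2742350) tA23_11 = true := by
  decide +kernel

theorem cX23_11 : cL W23_11 97 47 12 11 7700 4857356439936000000000000 (Nat.mul U23_11 0)
    (Nat.mul U23_11 2969021) tX23_11 = true := by
  decide +kernel

theorem cG23_11 : cL W23_11 97 47 12 11 7700 (Nat.mul U23_11 45989) (Nat.mul U23_11 0)
    (Nat.mul U23_11 2611681) tG23_11 = true := by
  decide +kernel

theorem cY23_11 : cY W23_11 47 23 1200614873469469254228283 tG23_11 = true := by
  decide +kernel

theorem cS23_11 : cS V23_11 301 W23_11 97 1 281474976710656 79228162514264337593543950336 47 23 tA23_11 tX23_11 tG23_11 = true := by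
  decide +kernel


end Pool.JM.Tab
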