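import Pool.Agent.Work.MP_46fa68_48t.D24_11

/-!
# MP_46fa68_co: checks for S_24, t = 11

The data were found numerically (helper12's solver), rounded and repaired in exact arithmetic.
-/

set_option autoImplicit false

namespace Pool.JM.Tab

open Pool.JM.Pack

theorem cP24_11 : cP W24_11 97 V24_11 301 1 281474976710656 79228162514264337593543950336 49 13 10 21450 8713288114176643190232723 U24_11 103991 0 9212874
    0 10002570 4981904040960000000000000 96242 0 9723368 = true := by
  decide +kernel

theorem cA24_11 : cL W24_11 97 49 13 10 21450 (Nat.mul U24_11 103991) (Nat.mul U24_11 0)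
    (Nat.mul U24_11 9212874) tA24_11 = true := by
  decide +kernel

theorem cX24_11 : cL W24_11 97 49 13 11 21450 4981904040960000000000000 (Nat.mul U24_11 0)
    (Nat.mul U24_11 10002570) tX24_11 = true := by
  decide +kernel

theorem cG24_11 : cL W24_11 97 49 13 11 21450 (Nat.mul U24_11 96242) (Nat.mul U24_11 0)
    (Nat.mul U24_11 9723368) tG24_11 = true := by
  decide +kernel

theorem cY24_11 : cY W24_11 49 24 8713288114176643190232723 tG24_11 = true := by
  decide +kernel

theorem cS24_11 : cS V24_11 301 W24_11 97 1 281474976710656 79228162514264337593543950336 49 24 tA24_11 tX24_11 tG24_11 = true := by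
  decide +kernel


end Pool.JM.Tab
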