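import Pool.Agent.Work.MP_46fa68_48t.D25_12

/-!
# MP_46fa68_co: checks for S_25, t = 12

The data were found numerically (helper12's solver), rounded and repaired in exact arithmetic.
-/

set_option autoImplicit false

namespace Pool.JM.Tab

open Pool.JM.Pack

theorem cP25_12 : cP W25_12 105 V25_12 317 1 281474976710656 79228162514264337593543950336 51 13 11 21450 61072962648144581160606543 U25_12 155995 0 3279243
    0 3510819 224185681843200000000000000 44253 0 3112459 = true := by
  decide +kernel

theorem cA25_12 : cL W25_12 105 51 13 11 21450 (Nat.mul U25_12 155995) (Nat.mul U25_12 0)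
    (Nat.mul U25_12 3279243) tA25_12 = true := by
  decide +kernel

theorem cX25_12 : cL W25_12 105 51 13 12 21450 224185681843200000000000000 (Nat.mul U25_12 0)
    (Nat.mul U25_12 3510819) tX25_12 = true := by
  decide +kernel

theorem cG25_12 : cL W25_12 105 51 13 12 21450 (Nat.mul U25_12 44253) (Nat.mul U25_12 0)
    (Nat.mul U25_12 3112459) tG25_12 = true := by
  decide +kernel

theorem cY25_12 : cY W25_12 51 25 61072962648144581160606543 tG25_12 = true := by
  decide +kernel

theorem cS25_12 : cS V25_12 317 W25_12 105 1 281474976710656 79228162514264337593543950336 51 25 tA25_12 tX25_12 tG25_12 = true := by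
  decide +kernel


end Pool.JM.Tab
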