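import Pool.Agent.Work.MP_46fa68_48t.D26_12

/-!
# MP_46fa68_co: checks for S_26, t = 12

The data were found numerically (helper12's solver), rounded and repaired in exact arithmetic.
-/

set_option autoImplicit false

namespace Pool.JM.Tab

open Pool.JM.Pack

theorem cP26_12 : cP W26_12 105 V26_12 317 1 281474976710656 79228162514264337593543950336 53 14 11 69498 438945768522815878892420453 U26_12 102786 0 11006971
    0 11828454 231302687616000000000000000 97446 0 11489019 = true := by
  decide +kernel

theorem cA26_12 : cL W26_12 105 53 14 11 69498 (Nat.mul U26_12 102786) (Nat.mul U26_12 0)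
    (Nat.mul U26_12 11006971) tA26_12 = true := by
  decide +kernel

theorem cX26_12 : cL W26_12 105 53 14 12 69498 231302687616000000000000000 (Nat.mul U26_12 0)
    (Nat.mul U26_12 11828454) tX26_12 = true := by
  decide +kernel

theorem cG26_12 : cL W26_12 105 53 14 12 69498 (Nat.mul U26_12 97446) (Nat.mul U26_12 0)
    (Nat.mul U26_12 11489019) tG26_12 = true := by
  decide +kernel

theorem cY26_12 : cY W26_12 53 26 438945768522815878892420453 tG26_12 = true := by
  decide +kernel

theorem cS26_12 : cS V26_12 317 W26_12 105 1 281474976710656 79228162514264337593543950336 53 26 tA26_12 tX26_12 tG26_12 = true := by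
  decide +kernel


end Pool.JM.Tab
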