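import Pool.Agent.Work.MP_46fa68_48t.DW41_20
import Pool.Agent.Work.MP_46fa68_48t.DA41_20
import Pool.Agent.Work.MP_46fa68_48t.DAl41_20
import Pool.Agent.Work.MP_46fa68_48c.Split2

/-!
# MP_46fa68_co: checks for S_41, t = 20

The data were found numerically (helper12's solver), rounded and repaired in exact arithmetic.
-/

set_option autoImplicit false

namespace Pool.JM.Tab

open Pool.JM.Pack

theorem lA41_20 : lt' tA41_20 (pw W41_20 40 40) = true := by
  decide +kernel

theorem dA41_20 : dnr W41_20 181 83 3 40 tA41_20 (fun y => Nat.beq y tAl41_20) = true := by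
  decide +kernel


end Pool.JM.Tab
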