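import Pool.Agent.Work.MP_46fa68_48t.D28_13

/-!
# MP_46fa68_co: checks for S_28, t = 13

The data were found numerically (helper12's solver), rounded and repaired in exact arithmetic.
-/

set_option autoImplicit false

namespace Pool.JM.Tab

open Pool.JM.Pack

theorem cP28_13 : cP W28_13 113 V28_13 349 1 72057594037927936 5192296858534827628530496329220096 57 15 12 292864 23582383322960830926940071390 U28_13 103014 0 13056073
    0 13782880 11657655455846400000000000000 97218 0 13253507 = true := by
  decide +kernel

theorem cA28_13 : cL W28_13 113 57 15 12 292864 (Nat.mul U28_13 103014) (Nat.mul U28_13 0)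
    (Nat.mul U28_13 13056073) tA28_13 = true := by
  decide +kernel


end Pool.JM.Tab
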