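import Pool.Agent.Work.MP_46fa68_48t.D37_18

/-!
# MP_46fa68_co: checks for S_37, t = 18

The data were found numerically (helper12's solver), rounded and repaired in exact arithmetic.
-/

set_option autoImplicit false

namespace Pool.JM.Tab

open Pool.JM.Pack

theorem cP37_18 : cP W37_18 161 V37_18 477 1 4722366482869645213696 22300745198530623141535718272648361505980416 75 19 17 64664600 13661113714995764276552340461843744555865 U37_18 108911 0 22503479
    0 22923415 5657339689378493276160000000000000000000 91534 0 21845184 = true := by
  decide +kernel

theorem cA37_18 : cL W37_18 161 75 19 17 64664600 (Nat.mul U37_18 108911) (Nat.mul U37_18 0)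
    (Nat.mul U37_18 22503479) tA37_18 = true := by
  decide +kernel


end Pool.JM.Tab
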