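import Pool.Agent.Work.MP_46fa68_48t.DW41_20
import Pool.Agent.Work.MP_46fa68_48t.DGl41_20
import Pool.Agent.Work.MP_46fa68_48c.Split2

/-!
# MP_46fa68_co: checks for S_41, t = 20

The data were found numerically (helper12's solver), rounded and repaired in exact arithmetic.
-/

set_option autoImplicit false

namespace Pool.JM.Tab

open Pool.JM.Pack

theorem eG41_20 : cL W41_20 181 83 21 17 1118939184 (Nat.mul U41_20 91399) (Nat.mul U41_20 0)
    (Nat.mul U41_20 27061089) tGl41_20 = true := by
  decide +kernel


end Pool.JM.Tab
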