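import Pool.Agent.Work.MP_46fa68_48t.D37_18

/-!
# MP_46fa68_co: checks for S_37, t = 18

The data were found numerically (helper12's solver), rounded and repaired in exact arithmetic.
-/

set_option autoImplicit false

namespace Pool.JM.Tab

open Pool.JM.Pack

theorem cG37_18 : cL W37_18 161 75 19 18 64664600 (Nat.mul U37_18 91534) (Nat.mul U37_18 0)
    (Nat.mul U37_18 21845184) tG37_18 = true := by
  decide +kernel

theorem cY37_18 : cY W37_18 75 37 13661113714995764276552340461843744555865 tG37_18 = true := by
  decide +kernel


end Pool.JM.Tab
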