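import Pool.Agent.Work.MP_46fa68_48t.DF37_18
import Pool.Agent.Work.MP_46fa68_48t.CN37_18
import Pool.Agent.Work.MP_46fa68_48c.Split

/-!
# MP_46fa68_co: variance checks for S_37, t = 18

The data were found numerically (helper12's solver), rounded and repaired in exact arithmetic.
-/

set_option autoImplicit false

namespace Pool.JM.Tab

open Pool.JM.Pack

theorem cF2x37_18 : upr W37_18 161 75 3 34 tH37_18 (fun y => Nat.beq y tF37_18) = true := by
  decide +kernel

theorem cF37_18 : upr W37_18 161 75 37 0 1 (fun y => Nat.beq y tF37_18) = true := by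
  have h := upr_step cF1x37_18 cF2x37_18
  exact h


end Pool.JM.Tab
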