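import Pool.Agent.Work.MP_46fa68_48t.D39_19
import Pool.Agent.Work.MP_46fa68_48t.DV39_19
import Pool.Agent.Work.MP_46fa68_48t.DH39_19
import Pool.Agent.Work.MP_46fa68_48c.Split

/-!
# MP_46fa68_co: variance checks for S_39, t = 19

The data were found numerically (helper12's solver), rounded and repaired in exact arithmetic.
-/

set_option autoImplicit false

namespace Pool.JM.Tab

open Pool.JM.Pack

theorem pB39_19 : cPB W39_19 169 VB39_19 177 BB39_19 1 4722366482869645213696 22300745198530623141535718272648361505980416 79 20 18 249420600 1078045665313654641490834366356352266320223 U39_19 109020 0 25153574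
    0 25641361 419208870982946351763456000000000000000000 91425 0 24543729 = true := by
  decide +kernel

theorem cF1x39_19 : upr W39_19 169 79 36 0 1 (fun y => Nat.beq y tH39_19) = true := by
  decide +kernel


end Pool.JM.Tab
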