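import Pool.Agent.Work.MP_46fa68_48t.DF39_19
import Pool.Agent.Work.MP_46fa68_48t.CN39_19
import Pool.Agent.Work.MP_46fa68_48c.Split

/-!
# MP_46fa68_co: variance checks for S_39, t = 19

The data were found numerically (helper12's solver), rounded and repaired in exact arithmetic.
-/

set_option autoImplicit false

namespace Pool.JM.Tab

open Pool.JM.Pack

theorem cF2x39_19 : upr W39_19 169 79 3 36 tH39_19 (fun y => Nat.beq y tF39_19) = true := by
  decide +kernel

theorem cF39_19 : upr W39_19 169 79 39 0 1 (fun y => Nat.beq y tF39_19) = true := by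
  have h := upr_step cF1x39_19 cF2x39_19
  exact h


end Pool.JM.Tab
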