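import Pool.Agent.Work.MP_46fa68_48t.DW41_20
import Pool.Agent.Work.MP_46fa68_48t.DH41_20
import Pool.Agent.Work.MP_46fa68_48c.Split2

/-!
# MP_46fa68_co: checks for S_41, t = 20

The data were found numerically (helper12's solver), rounded and repaired in exact arithmetic.
-/

set_option autoImplicit false

namespace Pool.JM.Tab

open Pool.JM.Pack

theorem pB41_20 : cPB W41_20 181 VB41_20 185 BB41_20 1 75557863725914323419136 5708990770823839524233143877797980545530986496 83 21 19 1118939184 882162576356486689740113992021394214376608488 U41_20 109045 0 27892542
    0 28309390 327382165910491436615270400000000000000000000 91399 0 27061089 = true := by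
  decide +kernel

theorem cF1x41_20 : upr W41_20 181 83 38 0 1 (fun y => Nat.beq y tH41_20) = true := by
  decide +kernel


end Pool.JM.Tab
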