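import Pool.Agent.Work.MP_46fa68_48t.D37_18
import Pool.Agent.Work.MP_46fa68_48t.DF37_18
import Pool.Agent.Work.MP_46fa68_48t.DV37_18
import Pool.Agent.Work.MP_46fa68_48c.Split

/-!
# MP_46fa68_co: variance checks for S_37, t = 18

The data were found numerically (helper12's solver), rounded and repaired in exact arithmetic.
-/

set_option autoImplicit false

namespace Pool.JM.Tab

open Pool.JM.Pack

theorem mR37_18 : cM VB37_18 173 W37_18 75 37 (gR BB37_18 22300745198530623141535718272648361505980416) 0 tG37_18 tF37_18 tR37_18 = true := by
  decide +kernel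


end Pool.JM.Tab
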