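import Pool.Agent.Work.MP_46fa68_48t.D28_13

/-!
# MP_46fa68_co: checks for S_28, t = 13

The data were found numerically (helper12's solver), rounded and repaired in exact arithmetic.
-/

set_option autoImplicit false

namespace Pool.JM.Tab

open Pool.JM.Pack

theorem cS28_13 : cS V28_13 349 W28_13 113 1 72057594037927936 5192296858534827628530496329220096 57 28 tA28_13 tX28_13 tG28_13 = true := by
  decide +kernel


end Pool.JM.Tab
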