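import Pool.Agent.Work.MP_46fa68_48t.D37_18
import Pool.Agent.Work.MP_46fa68_48t.DV37_18
import Pool.Agent.Work.MP_46fa68_48c.Split

/-!
# MP_46fa68_co: variance checks for S_37, t = 18

The data were found numerically (helper12's solver), rounded and repaired in exact arithmetic.
-/

set_option autoImplicit false

namespace Pool.JM.Tab

open Pool.JM.Pack

theorem mS37_18 : ck4 VB37_18 W37_18 (fS 1) 75 36 36 tP37_18 tQ37_18 tR37_18 tA37_18 = true := by
  decide +kernel


end Pool.JM.Tab
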