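import Pool.Agent.Work.MP_46fa68_48t.D28_13

/-!
# MP_46fa68_co: checks for S_28, t = 13

The data were found numerically (helper12's solver), rounded and repaired in exact arithmetic.
-/

set_option autoImplicit false

namespace Pool.JM.Tab

open Pool.JM.Pack

theorem cX28_13 : cL W28_13 113 57 15 13 292864 11657655455846400000000000000 (Nat.mul U28_13 0)
    (Nat.mul U28_13 13782880) tX28_13 = true := by
  decide +kernel


end Pool.JM.Tab
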