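import Pool.Agent.Work.MP_46fa68_48t.D39_19

/-!
# MP_46fa68_co: checks for S_39, t = 19

The data were found numerically (helper12's solver), rounded and repaired in exact arithmetic.
-/

set_option autoImplicit false

namespace Pool.JM.Tab

open Pool.JM.Pack

theorem cX39_19 : cL W39_19 169 79 20 19 249420600 419208870982946351763456000000000000000000 (Nat.mul U39_19 0)
    (Nat.mul U39_19 25641361) tX39_19 = true := by
  decide +kernel


end Pool.JM.Tab
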