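import Pool.Agent.Work.MP_46fa68_48c.Chk

/-!
# MP_46fa68_co: constants for S_41, t = 20

The data were found numerically (helper12's solver), rounded and repaired in exact arithmetic.
-/

set_option autoImplicit false

namespace Pool.JM.Tab

open Pool.JM.Pack

/-- scale of the digits -/
noncomputable def W41_20 : ℕ := 392318858461667547739736838950479151006397215279002157056

/-- unit -/
noncomputable def U41_20 : ℕ := 654764331820982873230540800000000000000

/-- scale of the digits of the variance tables -/
noncomputable def VB41_20 : ℕ := 6277101735386680763835789423207666416102355444464034512896

/-- bound of the entries of the variance tables -/
noncomputable def BB41_20 : ℕ := 49039857307708443467467104868809893875799651909875269632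


end Pool.JM.Tab
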