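import Pool.Agent.Work.MP_46fa68_48t.C19_8
import Pool.Agent.Work.MP_46fa68_48c.Tab

/-!
# MP_46fa68_co: excluded densities for S_19, t = 8

The data were found numerically (helper12's solver), rounded and repaired in exact arithmetic.
-/

set_option autoImplicit false

namespace Pool.JM.Tab

open Pool.JM.Pack

theorem jcs19_8 : JCs 18 11 91827 (-5829097) 6530524 108401 (-6247248) := by
  have h := JCs_of_tab_neg cP19_8 cA19_8 cX19_8 cG19_8 cY19_8 cS19_8
  norm_num at h
  exact h

/-- no cell of a 8-intersecting family of at least `θ m!` permutations of `19` points has a density in this range -/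
theorem excl19_8 : Excl 19 8 (73 / 100) (97 / 625) (104 / 125) :=
  jcs19_8.excl (by norm_num) (by norm_num) (by norm_num) (by norm_num) (by norm_num)
    (by norm_num) (by norm_num) (by norm_num) (by norm_num) (by norm_num) (by norm_num)
    (by norm_num)


end Pool.JM.Tab
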