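import Pool.Agent.Work.MP_46fa68_48t.C22_10
import Pool.Agent.Work.MP_46fa68_48c.Tab

/-!
# MP_46fa68_co: excluded densities for S_22, t = 10

The data were found numerically (helper12's solver), rounded and repaired in exact arithmetic.
-/

set_option autoImplicit false

namespace Pool.JM.Tab

open Pool.JM.Pack

theorem jcs22_10 : JCs 21 12 103119 (-7570874) 8317985 97113 (-8104122) := by
  have h := JCs_of_tab_neg cP22_10 cA22_10 cX22_10 cG22_10 cY22_10 cS22_10
  norm_num at h
  exact h

/-- no cell of a 10-intersecting family of at least `θ m!` permutations of `22` points has a density in this range -/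
theorem excl22_10 : Excl 22 10 (443 / 500) (279 / 2000) (7 / 8) :=
  jcs22_10.excl (by norm_num) (by norm_num) (by norm_num) (by norm_num) (by norm_num)
    (by norm_num) (by norm_num) (by norm_num) (by norm_num) (by norm_num) (by norm_num)
    (by norm_num)


end Pool.JM.Tab
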