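import Pool.Agent.Work.MP_46fa68_48c.Tab
import Pool.Agent.Work.MP_46fa68_48t.CA28_13
import Pool.Agent.Work.MP_46fa68_48t.CX28_13
import Pool.Agent.Work.MP_46fa68_48t.CG28_13
import Pool.Agent.Work.MP_46fa68_48t.CS28_13

/-!
# MP_46fa68_co: excluded densities for S_28, t = 13

The data were found numerically (helper12's solver), rounded and repaired in exact arithmetic.
-/

set_option autoImplicit false

namespace Pool.JM.Tab

open Pool.JM.Pack

theorem jcs28_13 : JCs 27 15 103014 (-13056073) 13782880 97218 (-13253507) := by
  have h := JCs_of_tab_neg cP28_13 cA28_13 cX28_13 cG28_13 cY28_13 cS28_13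
  norm_num at h
  exact h

/-- no cell of a 13-intersecting family of at least `θ m!` permutations of `28` points has a density in this range -/
theorem excl28_13 : Excl 28 13 (183 / 200) (979 / 10000) (9083 / 10000) :=
  jcs28_13.excl (by norm_num) (by norm_num) (by norm_num) (by norm_num) (by norm_num)
    (by norm_num) (by norm_num) (by norm_num) (by norm_num) (by norm_num) (by norm_num)
    (by norm_num)


end Pool.JM.Tab
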