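import Pool.Agent.Work.MP_46fa68_48c.TabB
import Pool.Agent.Work.MP_46fa68_48t.CA37_18
import Pool.Agent.Work.MP_46fa68_48t.CX37_18
import Pool.Agent.Work.MP_46fa68_48t.CG37_18
import Pool.Agent.Work.MP_46fa68_48t.CN37_18
import Pool.Agent.Work.MP_46fa68_48t.CM37_18
import Pool.Agent.Work.MP_46fa68_48t.CP37_18
import Pool.Agent.Work.MP_46fa68_48t.CQ37_18
import Pool.Agent.Work.MP_46fa68_48t.CR37_18
import Pool.Agent.Work.MP_46fa68_48t.CT37_18

/-!
# MP_46fa68_co: excluded densities for S_37, t = 18

The data were found numerically (helper12's solver), rounded and repaired in exact arithmetic.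
-/

set_option autoImplicit false

namespace Pool.JM.Tab

open Pool.JM.Pack

theorem jcs37_18 : JCs 36 19 108911 (-22503479) 22923415 91534 (-21845184) := by
  have h := JCs_of_pieces_neg pB37_18 cA37_18 cX37_18 cG37_18 cY37_18 cF37_18 mP37_18 mQ37_18
    mR37_18 mS37_18
  norm_num at h
  exact h

/-- no cell of a 18-intersecting family of at least `θ m!` permutations of `37` points has a density in this range -/
theorem excl37_18 : Excl 37 18 1 (151 / 2000) (9339 / 10000) :=
  jcs37_18.excl (by norm_num) (by norm_num) (by norm_num) (by norm_num) (by norm_num)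
    (by norm_num) (by norm_num) (by norm_num) (by norm_num) (by norm_num) (by norm_num)
    (by norm_num)


end Pool.JM.Tab
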