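import Pool.Agent.Work.MP_46fa68_48c.TabB
import Pool.Agent.Work.MP_46fa68_48t.CA39_19
import Pool.Agent.Work.MP_46fa68_48t.CX39_19
import Pool.Agent.Work.MP_46fa68_48t.CG39_19
import Pool.Agent.Work.MP_46fa68_48t.CN39_19
import Pool.Agent.Work.MP_46fa68_48t.CM39_19
import Pool.Agent.Work.MP_46fa68_48t.CP39_19
import Pool.Agent.Work.MP_46fa68_48t.CQ39_19
import Pool.Agent.Work.MP_46fa68_48t.CR39_19
import Pool.Agent.Work.MP_46fa68_48t.CT39_19

/-!
# MP_46fa68_co: excluded densities for S_39, t = 19

The data were found numerically (helper12's solver), rounded and repaired in exact arithmetic.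
-/

set_option autoImplicit false

namespace Pool.JM.Tab

open Pool.JM.Pack

theorem jcs39_19 : JCs 38 20 109020 (-25153574) 25641361 91425 (-24543729) := by
  have h := JCs_of_pieces_neg pB39_19 cA39_19 cX39_19 cG39_19 cY39_19 cF39_19 mP39_19 mQ39_19
    mR39_19 mS39_19
  norm_num at h
  exact h

/-- no cell of a 19-intersecting family of at least `θ m!` permutations of `39` points has a density in this range -/
theorem excl39_19 : Excl 39 19 1 (357 / 5000) (469 / 500) :=
  jcs39_19.excl (by norm_num) (by norm_num) (by norm_num) (by norm_num) (by norm_num)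
    (by norm_num) (by norm_num) (by norm_num) (by norm_num) (by norm_num) (by norm_num)
    (by norm_num)


end Pool.JM.Tab
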