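import Pool.Agent.Work.MP_46fa68_48c.TabB
import Pool.Agent.Work.MP_46fa68_48t.CA141_20
import Pool.Agent.Work.MP_46fa68_48t.CA241_20
import Pool.Agent.Work.MP_46fa68_48t.CX141_20
import Pool.Agent.Work.MP_46fa68_48t.CX241_20
import Pool.Agent.Work.MP_46fa68_48t.CG141_20
import Pool.Agent.Work.MP_46fa68_48t.CG241_20
import Pool.Agent.Work.MP_46fa68_48t.CY41_20
import Pool.Agent.Work.MP_46fa68_48t.CN41_20
import Pool.Agent.Work.MP_46fa68_48t.CM41_20
import Pool.Agent.Work.MP_46fa68_48t.CP141_20
import Pool.Agent.Work.MP_46fa68_48t.CP241_20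
import Pool.Agent.Work.MP_46fa68_48t.CQ141_20
import Pool.Agent.Work.MP_46fa68_48t.CQ241_20
import Pool.Agent.Work.MP_46fa68_48t.CR141_20
import Pool.Agent.Work.MP_46fa68_48t.CR241_20
import Pool.Agent.Work.MP_46fa68_48t.CT41_20

/-!
# MP_46fa68_co: excluded densities for S_41, t = 20

The data were found numerically (helper12's solver), rounded and repaired in exact arithmetic.
-/

set_option autoImplicit false

namespace Pool.JM.Tab

open Pool.JM.Pack

theorem cA41_20 : cL W41_20 181 83 21 19 1118939184 (Nat.mul U41_20 109045) (Nat.mul U41_20 0)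
    (Nat.mul U41_20 27892542) tA41_20 = true := by
  have h := cL_step (m := 21) (j := 16) (i := 3) lA41_20 dA41_20 eA41_20
  exact h

theorem cX41_20 : cL W41_20 181 83 21 20 1118939184 327382165910491436615270400000000000000000000 (Nat.mul U41_20 0)
    (Nat.mul U41_20 28309390) tX41_20 = true := by
  have h := cL_step (m := 21) (j := 17) (i := 3) lX41_20 dX41_20 eX41_20
  exact h

theorem cG41_20 : cL W41_20 181 83 21 20 1118939184 (Nat.mul U41_20 91399) (Nat.mul U41_20 0)
    (Nat.mul U41_20 27061089) tG41_20 = true := by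
  have h := cL_step (m := 21) (j := 17) (i := 3) lG41_20 dG41_20 eG41_20
  exact h

theorem cF41_20 : upr W41_20 181 83 41 0 1 (fun y => Nat.beq y tF41_20) = true := by
  have h := upr_step cF1x41_20 cF2x41_20
  exact h

theorem jcs41_20 : JCs 40 21 109045 (-27892542) 28309390 91399 (-27061089) := by
  have h := JCs_of_pieces_neg pB41_20 cA41_20 cX41_20 cG41_20 cY41_20 cF41_20 (cM_of zP41_20 rP41_20)
    (cM_of zQ41_20 rQ41_20) (cM_of zR41_20 rR41_20) mS41_20
  norm_num at h
  exact h

/-- no cell of a 20-intersecting family of at least `θ m!` permutations of `41` points has a density in this range -/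
theorem excl41_20 : Excl 41 20 1 (27 / 400) (9411 / 10000) :=
  jcs41_20.excl (by norm_num) (by norm_num) (by norm_num) (by norm_num) (by norm_num)
    (by norm_num) (by norm_num) (by norm_num) (by norm_num) (by norm_num) (by norm_num)
    (by norm_num)


end Pool.JM.Tab
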